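import Pool.Agent.W901.RL.Stm

set_option autoImplicit false

namespace Pool.Agent.W311.RL

open Finset

theorem card_bad {ι : Type} [Fintype ι] [DecidableEq ι] (t : ℕ) (ht : 2 ≤ t) :
    (univ.filter (fun f : Fin t → ι => ∀ a, ∃ l, l ≠ a ∧ f l = f a)).card ≤
      (t / 2) ^ t * (Fintype.card ι) ^ (t / 2) := by
  classical
  set m := t / 2 with hm
  have hcard : Fintype.card ((Fin t → Fin m) × (Fin m → ι)) = m ^ t * (Fintype.card ι) ^ m := by
    simp [Fintype.card_prod]
  rw [← hcard, ← Finset.card_univ]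
  have himg : (univ.filter (fun f : Fin t → ι => ∀ a, ∃ l, l ≠ a ∧ f l = f a)) ⊆
      (univ : Finset ((Fin t → Fin m) × (Fin m → ι))).image (fun x => x.2 ∘ x.1) := by
    intro f hf
    rw [Finset.mem_filter] at hf
    have hf2 := hf.2
    set I := univ.image f with hI
    have h2 : 2 * I.card ≤ t := by
      have h3 := Finset.card_eq_sum_card_image f (univ : Finset (Fin t))
      rw [Finset.card_univ, Fintype.card_fin, ← hI] at h3
      have h4 : ∀ b ∈ I, 2 ≤ (univ.filter (fun x => f x = b)).card := by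
        intro b hb
        obtain ⟨a, -, rfl⟩ := Finset.mem_image.mp hb
        obtain ⟨l, hl, hl2⟩ := hf2 a
        rw [show (2 : ℕ) = 1 + 1 from rfl, Nat.add_one_le_iff, Finset.one_lt_card]
        refine ⟨l, ?_, a, ?_, hl⟩
        · rw [Finset.mem_filter]; exact ⟨Finset.mem_univ _, hl2⟩
        · rw [Finset.mem_filter]; exact ⟨Finset.mem_univ _, rfl⟩
      have h5 : I.card * 2 ≤ ∑ b ∈ I, (univ.filter (fun x => f x = b)).card := by
        have := Finset.card_nsmul_le_sum I (fun b => (univ.filter (fun x => f x = b)).card) 2 h4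
        simpa using this
      rw [← h3] at h5
      omega
    have hIm : I.card ≤ m := by omega
    have h0 : 0 < t := by omega
    let e := I.equivFin
    let x0 : ι := f ⟨0, h0⟩
    let g : Fin m → ι := fun j => if h : j.1 < I.card then (e.symm ⟨j.1, h⟩ : ι) else x0
    have hfI : ∀ l, f l ∈ I := fun l => Finset.mem_image_of_mem f (Finset.mem_univ l)
    let p : Fin t → Fin m := fun l => ⟨(e ⟨f l, hfI l⟩).1, lt_of_lt_of_le (e ⟨f l, hfI l⟩).2 hIm⟩
    rw [Finset.mem_image]
    refine ⟨(p, g), Finset.mem_univ _, ?_⟩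
    funext l
    show g (p l) = f l
    have h6 : (p l).1 < I.card := (e ⟨f l, hfI l⟩).2
    show (if h : (p l).1 < I.card then (e.symm ⟨(p l).1, h⟩ : ι) else x0) = f l
    rw [dif_pos h6]
    have h7 : (⟨(p l).1, h6⟩ : Fin I.card) = e ⟨f l, hfI l⟩ := rfl
    rw [h7, Equiv.symm_apply_apply]
  exact (Finset.card_le_card himg).trans Finset.card_image_le

theorem mom : Pool.Agent.W901.RL.S_MOM := by
  intro Ω ι _ _ _ X B t ht hB hX hf
  classical
  rcases Nat.eq_zero_or_pos t with rfl | ht0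
  · simp
  have ht2 : 2 ≤ t := by
    rcases ht with ⟨r, hr⟩
    omega
  have hexp : ∀ ω, (∑ i, X i ω) ^ t = ∑ f : Fin t → ι, ∏ l, X (f l) ω := by
    intro ω
    have := Finset.prod_univ_sum (fun _ : Fin t => (univ : Finset ι)) (fun _ i => X i ω)
    simpa [Fintype.piFinset_univ] using this
  have hterm : ∀ f : Fin t → ι, ∑ ω, ∏ l, X (f l) ω ≤
      if (∀ a, ∃ l, l ≠ a ∧ f l = f a) then (Fintype.card Ω : ℝ) * B ^ t else 0 := by
    intro f
    split_ifs with hc
    · calc ∑ ω, ∏ l, X (f l) ω ≤ ∑ _ω : Ω, B ^ t := by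
            apply Finset.sum_le_sum
            intro ω _
            calc ∏ l, X (f l) ω ≤ |∏ l, X (f l) ω| := le_abs_self _
              _ = ∏ l, |X (f l) ω| := Finset.abs_prod _ _
              _ ≤ ∏ _l : Fin t, B := Finset.prod_le_prod (fun l _ => abs_nonneg _) (fun l _ => hX _ _)
              _ = B ^ t := by simp
        _ = (Fintype.card Ω : ℝ) * B ^ t := by simp
    · push Not at hc
      obtain ⟨a, ha⟩ := hc
      exact (hf f ⟨a, ha⟩).le
  calc ∑ ω, (∑ i, X i ω) ^ t = ∑ f : Fin t → ι, ∑ ω, ∏ l, X (f l) ω := by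
        rw [Finset.sum_comm]
        exact Finset.sum_congr rfl (fun ω _ => hexp ω)
    _ ≤ ∑ f : Fin t → ι, if (∀ a, ∃ l, l ≠ a ∧ f l = f a) then (Fintype.card Ω : ℝ) * B ^ t else 0 :=
        Finset.sum_le_sum (fun f _ => hterm f)
    _ = ((univ.filter (fun f : Fin t → ι => ∀ a, ∃ l, l ≠ a ∧ f l = f a)).card : ℝ) *
          ((Fintype.card Ω : ℝ) * B ^ t) := by
        rw [← Finset.sum_filter, Finset.sum_const, nsmul_eq_mul]
    _ ≤ (((t / 2) ^ t * (Fintype.card ι) ^ (t / 2) : ℕ) : ℝ) * ((Fintype.card Ω : ℝ) * B ^ t) := by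
        apply mul_le_mul_of_nonneg_right _ (by positivity)
        exact_mod_cast card_bad t ht2
    _ ≤ (Fintype.card Ω : ℝ) * (B * t) ^ t * (Fintype.card ι : ℝ) ^ (t / 2) := by
        have h1 : (((t / 2 : ℕ) : ℝ)) ^ t ≤ (t : ℝ) ^ t := by
          apply pow_le_pow_left₀ (by positivity)
          exact_mod_cast Nat.div_le_self t 2
        push_cast
        rw [mul_pow]
        have h2 : (0 : ℝ) ≤ (Fintype.card Ω : ℝ) * B ^ t * (Fintype.card ι : ℝ) ^ (t / 2) := by positivity
        calc ((t / 2 : ℕ) : ℝ) ^ t * (Fintype.card ι : ℝ) ^ (t / 2) * ((Fintype.card Ω : ℝ) * B ^ t)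
            = ((t / 2 : ℕ) : ℝ) ^ t * ((Fintype.card Ω : ℝ) * B ^ t * (Fintype.card ι : ℝ) ^ (t / 2)) := by ring
          _ ≤ (t : ℝ) ^ t * ((Fintype.card Ω : ℝ) * B ^ t * (Fintype.card ι : ℝ) ^ (t / 2)) :=
              mul_le_mul_of_nonneg_right h1 h2
          _ = _ := by ring

end Pool.Agent.W311.RL
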